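import Pool.Agent.H44R2.WrN.Win

/-!
The torsion-free nilpotent groups and the approximate homomorphisms from the wreath product.
-/

set_option autoImplicit false

namespace Pool.Agent.H44R2.WrN

section general

variable {V : Type} [AddCommGroup V] [Module ℚ V] {F : ℕ → Submodule ℚ V}

theorem toUnits_mem {H : Type} [Group H] (hF : Antitone F) (ρ : H →* Module.End ℚ V)
    (h : ∀ x, ∀ t, ∀ v ∈ F t, ρ x v - v ∈ F (t + 1)) (x : H) :
    ρ.toHomUnits x ∈ Stab F hF 1 := by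
  refine ⟨?_, ?_⟩
  · intro t v hv
    exact h x t v hv
  · intro t v hv
    rw [← map_inv]
    exact h x⁻¹ t v hv

end general

section

variable (N : Type) [Group N] (K L : ℕ)

/-- the filtration on the space `Fz N K L 0` -/
def Fv (t : ℕ) : Submodule ℚ (Fz N K L 0) := (Fz N K L t).comap (Fz N K L 0).subtype

variable {N K L}

theorem mem_Fv {t : ℕ} {v : Fz N K L 0} : v ∈ Fv N K L t ↔ (v : ℤ → N → ℚ) ∈ Fz N K L t :=
  Iff.rfl

theorem Fv_anti (hL : 0 < L) : Antitone (Fv N K L) := fun _ _ h _ hv => Fz_anti hL h hv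

theorem Fv_top : Fv N K L 0 = ⊤ := by
  rw [eq_top_iff]
  intro v _
  exact v.2

theorem Fv_bot (hL : 0 < L) : Fv N K L (K * L) = ⊥ := by
  rw [eq_bot_iff]
  intro v hv
  rw [mem_Fv, Fz_bot hL, Submodule.mem_bot] at hv
  rw [Submodule.mem_bot]
  exact Subtype.ext hv

/-- the group of all units preserving the filtration and acting trivially on its factors -/
abbrev Gam (N : Type) [Group N] (K : ℕ) {L : ℕ} (hL : 0 < L) : Type :=
  ↥(Stab (Fv N K L) (Fv_anti hL) 1)

theorem Gam_nilpotent (hL : 0 < L) : Group.IsNilpotent (Gam N K hL) :=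
  Stab_nilpotent (Fv_anti hL) Fv_top (Fv_bot hL)

theorem Gam_tf (hL : 0 < L) (g : Gam N K hL) (k : ℕ) (hk : 0 < k) (h : g ^ k = 1) : g = 1 := by
  apply Subtype.ext
  refine Stab_tf (Fv_anti hL) Fv_top (Fv_bot hL) g.2 hk ?_
  have := congrArg Subtype.val h
  exact this

/-- restriction to the space `Fz N K L 0` of a homomorphism -/
def resHom {H : Type} [Group H] (ρ : H →* Module.End ℚ (ℤ → N → ℚ))
    (h : ∀ x, ∀ s ∈ Fz N K L 0, ρ x s ∈ Fz N K L 0) : H →* Module.End ℚ (Fz N K L 0) where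
  toFun x := (ρ x).restrict (h x)
  map_one' := by
    apply LinearMap.ext; intro v; apply Subtype.ext
    rw [LinearMap.restrict_apply]
    show ρ 1 v = v
    rw [map_one]; rfl
  map_mul' x y := by
    apply LinearMap.ext; intro v; apply Subtype.ext
    rw [LinearMap.restrict_apply]
    show ρ (x * y) v = ρ x (ρ y v)
    rw [map_mul]; rfl

theorem pres {H : Type} [Group H] (hL : 0 < L) (ρ : H →* Module.End ℚ (ℤ → N → ℚ))
    (h : ∀ x, ∀ t, ∀ s ∈ Fz N K L t, ρ x s - s ∈ Fz N K L (t + 1)) :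
    ∀ x, ∀ s ∈ Fz N K L 0, ρ x s ∈ Fz N K L 0 := by
  intro x s hs
  have h1 : ρ x s = (ρ x s - s) + s := by abel
  rw [h1]
  exact Submodule.add_mem _ (Fz_anti hL (by omega) (h x 0 s hs)) hs

/-- the homomorphism to `Gam` -/
def toGam {H : Type} [Group H] (hL : 0 < L) (ρ : H →* Module.End ℚ (ℤ → N → ℚ))
    (h : ∀ x, ∀ t, ∀ s ∈ Fz N K L t, ρ x s - s ∈ Fz N K L (t + 1)) : H →* Gam N K hL :=
  ((resHom ρ (pres hL ρ h)).toHomUnits).codRestrict _
    (fun x => toUnits_mem (Fv_anti hL) _ (fun x t v hv => h x t v hv) x)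

theorem toGam_apply {H : Type} [Group H] (hL : 0 < L) (ρ : H →* Module.End ℚ (ℤ → N → ℚ))
    (h : ∀ x, ∀ t, ∀ s ∈ Fz N K L t, ρ x s - s ∈ Fz N K L (t + 1)) (x : H) (v : Fz N K L 0) :
    (((((toGam hL ρ h x : Gam N K hL) : (Module.End ℚ (Fz N K L 0))ˣ) :
      Module.End ℚ (Fz N K L 0)) v : Fz N K L 0) : ℤ → N → ℚ) = ρ x v := rfl

theorem Gam_ext (hL : 0 < L) {g g' : Gam N K hL}
    (h : ∀ v : Fz N K L 0, ((((g : (Module.End ℚ (Fz N K L 0))ˣ) :
      Module.End ℚ (Fz N K L 0)) v : Fz N K L 0) : ℤ → N → ℚ) =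
      (((g' : (Module.End ℚ (Fz N K L 0))ˣ) : Module.End ℚ (Fz N K L 0)) v : Fz N K L 0)) :
    g = g' := by
  apply Subtype.ext
  apply Units.ext
  apply LinearMap.ext
  intro v
  exact Subtype.ext (h v)

/-- the base homomorphism into endomorphisms -/
def EzHom (N : Type) [Group N] {p : ℤ → ℚ} {S : Finset ℤ} (hp0 : p 0 = 1)
    (hpS : ∀ i ∈ S, ∀ j ∈ S, i ≠ j → p (i - j) = 0) : (ℤ → N) →* Module.End ℚ (ℤ → N → ℚ) where
  toFun b := Ez p S b
  map_one' := Ez_one p S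
  map_mul' b b' := Ez_mul hp0 hpS b b'

/-- translations -/
def TzHom (N : Type) [Group N] : Multiplicative ℤ →* Module.End ℚ (ℤ → N → ℚ) where
  toFun a := Tz (N → ℚ) a.toAdd
  map_one' := Tz_zero
  map_mul' a b := Tz_add _ _

end

section free

theorem ev_hom {Wr : Type} [Group Wr] (Γ : ℕ → Type) [∀ M, Group (Γ M)] (Θ : ∀ M, Wr → Γ M)
    (hΘ : ∀ x y, ∀ᶠ M in Filter.atTop, Θ M (x * y) = Θ M x * Θ M y) {n : ℕ}
    (f : FreeGroup (Fin n) →* Wr) (u : FreeGroup (Fin n)) :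
    ∀ᶠ M in Filter.atTop,
      FreeGroup.lift (fun i => Θ M (f (FreeGroup.of i))) u = Θ M (f u) := by
  have h1 : ∀ᶠ M in Filter.atTop, Θ M 1 = 1 := by
    refine (hΘ 1 1).mono fun M hM => ?_
    rw [mul_one] at hM
    exact (mul_eq_left.1 hM.symm)
  induction u using FreeGroup.induction_on with
  | C1 =>
    refine h1.mono fun M hM => ?_
    rw [map_one, map_one, hM]
  | of x =>
    refine Filter.Eventually.of_forall fun M => ?_
    rw [FreeGroup.lift_apply_of]
  | inv_of x ih =>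
    filter_upwards [h1, ih, hΘ (f (FreeGroup.of x)) (f (FreeGroup.of x))⁻¹] with M a b c
    rw [map_inv, b, map_inv, inv_eq_iff_mul_eq_one, ← c, mul_inv_cancel, a]
  | mul x y hx hy =>
    filter_upwards [hx, hy, hΘ (f x) (f y)] with M a b c
    rw [map_mul, a, b, map_mul, c]

end free

end Pool.Agent.H44R2.WrN
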