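import Mathlib

/-!
Rational polynomial functions on subgroups of a nilpotent group, and the extension step:
if they separate the points of a normal subgroup `M` of a nilpotent group `N`, they separate
the points of `⟨x⟩ M` when `x` has infinite order modulo `M`.
-/

set_option autoImplicit false

namespace Pool.Agent.H44R2.WrN

section

variable {N : Type} [Group N]

/-- right translation -/
def rt (m : N) : (N → ℚ) →ₗ[ℚ] (N → ℚ) where
  toFun l := fun x => l (x * m)
  map_add' _ _ := rfl
  map_smul' _ _ := rfl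

@[simp] theorem rt_apply (m : N) (l : N → ℚ) (x : N) : rt m l x = l (x * m) := rfl

/-- difference operator -/
def dl (m : N) : (N → ℚ) →ₗ[ℚ] (N → ℚ) := rt m - LinearMap.id

@[simp] theorem dl_apply (m : N) (l : N → ℚ) (x : N) : dl m l x = l (x * m) - l x := rfl

theorem dl_eq (m : N) (l : N → ℚ) : dl m l = rt m l - l := rfl

/-- conjugation -/
def cj (n : N) : (N → ℚ) →ₗ[ℚ] (N → ℚ) where
  toFun l := fun x => l (n⁻¹ * x * n)
  map_add' _ _ := rfl
  map_smul' _ _ := rfl

@[simp] theorem cj_apply (n : N) (l : N → ℚ) (x : N) : cj n l x = l (n⁻¹ * x * n) := rfl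

/-- functions vanishing on `M` -/
def Z0 (M : Subgroup N) : Submodule ℚ (N → ℚ) where
  carrier := {l | ∀ x ∈ M, l x = 0}
  add_mem' := by
    intro a b ha hb x hx
    rw [Pi.add_apply, ha x hx, hb x hx, add_zero]
  zero_mem' := fun x _ => rfl
  smul_mem' := by
    intro c a ha x hx
    rw [Pi.smul_apply, ha x hx, smul_zero]

theorem mem_Z0 {M : Subgroup N} {l : N → ℚ} : l ∈ Z0 M ↔ ∀ x ∈ M, l x = 0 := Iff.rfl

/-- Functions on `N` whose restriction to `M` is polynomial of degree `< k`. -/
def P (M : Subgroup N) : ℕ → Submodule ℚ (N → ℚ)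
  | 0 => Z0 M
  | k + 1 => ⨅ m : M, (P M k).comap (dl (m : N))

theorem mem_P_zero {M : Subgroup N} {l : N → ℚ} : l ∈ P M 0 ↔ ∀ x ∈ M, l x = 0 := Iff.rfl

theorem mem_P_succ {M : Subgroup N} {k : ℕ} {l : N → ℚ} :
    l ∈ P M (k + 1) ↔ ∀ m ∈ M, dl m l ∈ P M k := by
  rw [P, Submodule.mem_iInf]
  exact ⟨fun h m hm => h ⟨m, hm⟩, fun h m => h m m.2⟩

theorem P_congr {M : Subgroup N} {k : ℕ} {l l' : N → ℚ} (h : ∀ x ∈ M, l x = l' x)
    (hl : l ∈ P M k) : l' ∈ P M k := by
  induction k generalizing l l' with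
  | zero => intro x hx; rw [← h x hx]; exact hl x hx
  | succ k ih =>
    rw [mem_P_succ] at hl ⊢
    intro m hm
    refine ih ?_ (hl m hm)
    intro x hx
    rw [dl_apply, dl_apply, h _ (M.mul_mem hx hm), h x hx]

/-- weighted polynomial functions -/
def W (Mi : ℕ → Subgroup N) : ℕ → Submodule ℚ (N → ℚ)
  | 0 => Z0 (Mi 0)
  | w + 1 => ⨅ i : ℕ, ⨅ u : Mi i, (W Mi (w - i)).comap (dl (u : N))
termination_by w => w
decreasing_by omega

variable {Mi : ℕ → Subgroup N}

theorem mem_W_zero {l : N → ℚ} : l ∈ W Mi 0 ↔ ∀ x ∈ Mi 0, l x = 0 := by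
  rw [W]; rfl

theorem mem_W_succ {w : ℕ} {l : N → ℚ} :
    l ∈ W Mi (w + 1) ↔ ∀ i, ∀ u ∈ Mi i, dl u l ∈ W Mi (w - i) := by
  rw [W, Submodule.mem_iInf]
  refine forall_congr' fun i => ?_
  rw [Submodule.mem_iInf]
  exact ⟨fun h m hm => h ⟨m, hm⟩, fun h m => h m m.2⟩

/-- the standing assumptions on the chain -/
structure Good (Mi : ℕ → Subgroup N) : Prop where
  le : ∀ i, Mi i ≤ Mi 0
  norm : ∀ i, (Mi i).Normal
  comm : ∀ i, ∀ u ∈ Mi i, ∀ n : N, u⁻¹ * (n⁻¹ * u * n) ∈ Mi (i + 1)

theorem W_mono_succ (hG : Good Mi) : ∀ w, W Mi w ≤ W Mi (w + 1) := by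
  intro w
  induction w using Nat.strong_induction_on with
  | _ w ih =>
    intro l hl
    rw [mem_W_succ]
    intro i u hu
    rcases w with _ | w
    · rw [mem_W_zero] at hl
      rw [Nat.zero_sub, mem_W_zero]
      intro x hx
      rw [dl_apply, hl _ ((Mi 0).mul_mem hx (hG.le i hu)), hl x hx, sub_zero]
    · rw [mem_W_succ] at hl
      have h1 := hl i u hu
      by_cases hi : i ≤ w
      · have h2 : w + 1 - i = (w - i) + 1 := by omega
        rw [h2]
        exact ih (w - i) (by omega) h1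
      · have h2 : w + 1 - i = w - i := by omega
        rw [h2]
        exact h1

theorem W_mono (hG : Good Mi) : Monotone (W Mi) := monotone_nat_of_le_succ (W_mono_succ hG)

theorem dl_mem_W (hG : Good Mi) {w : ℕ} {l : N → ℚ} (hl : l ∈ W Mi w) {i : ℕ} {u : N}
    (hu : u ∈ Mi i) : dl u l ∈ W Mi (w - (i + 1)) := by
  rcases w with _ | w
  · rw [mem_W_zero] at hl
    rw [Nat.zero_sub, mem_W_zero]
    intro x hx
    rw [dl_apply, hl _ ((Mi 0).mul_mem hx (hG.le i hu)), hl x hx, sub_zero]
  · rw [mem_W_succ] at hl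
    have h2 : w + 1 - (i + 1) = w - i := by omega
    rw [h2]
    exact hl i u hu

theorem rt_mem_W (hG : Good Mi) {w : ℕ} {l : N → ℚ} (hl : l ∈ W Mi w) {u : N}
    (hu : u ∈ Mi 0) : rt u l ∈ W Mi w := by
  have h : rt u l = dl u l + l := by rw [dl_eq]; abel
  rw [h]
  exact (W Mi w).add_mem (W_mono hG (by omega) (dl_mem_W hG hl hu)) hl

theorem cj_sub_mem (hG : Good Mi) (n : N) : ∀ w, ∀ l ∈ W Mi w, cj n l - l ∈ W Mi (w - 1) := by
  intro w
  induction w using Nat.strong_induction_on with
  | _ w ih =>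
    intro l hl
    rcases w with _ | w
    · rw [mem_W_zero] at hl ⊢
      intro x hx
      have h1 : n⁻¹ * x * n ∈ Mi 0 := by
        have := (hG.norm 0).conj_mem x hx n⁻¹
        rwa [inv_inv] at this
      rw [Pi.sub_apply, cj_apply, hl _ h1, hl x hx, sub_zero]
    · rcases w with _ | w
      · rw [mem_W_succ] at hl
        rw [Nat.zero_add, Nat.sub_self, mem_W_zero]
        have hc : ∀ x ∈ Mi 0, l x = l 1 := by
          intro x hx
          have h1 := hl 0 x hx
          rw [Nat.zero_sub, mem_W_zero] at h1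
          have h2 := h1 1 (Mi 0).one_mem
          rw [dl_apply, one_mul] at h2
          linarith
        intro x hx
        have h1 : n⁻¹ * x * n ∈ Mi 0 := by
          have := (hG.norm 0).conj_mem x hx n⁻¹
          rwa [inv_inv] at this
        rw [Pi.sub_apply, cj_apply, hc _ h1, hc x hx, sub_self]
      · have h0 : w + 1 + 1 - 1 = w + 1 := by omega
        rw [h0, mem_W_succ]
        intro i u hu
        set v := u⁻¹ * (n⁻¹ * u * n) with hv
        have hv' : v ∈ Mi (i + 1) := hG.comm i u hu n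
        have hun : n⁻¹ * u * n ∈ Mi i := by
          have := (hG.norm i).conj_mem u hu n⁻¹
          rwa [inv_inv] at this
        have h1 : dl u (cj n l - l) = (cj n (dl (n⁻¹ * u * n) l) - dl (n⁻¹ * u * n) l) +
            rt u (dl v l) := by
          funext x
          simp only [Pi.add_apply, Pi.sub_apply, dl_apply, cj_apply, rt_apply]
          have e1 : n⁻¹ * x * n * (n⁻¹ * u * n) = n⁻¹ * (x * u) * n := by group
          have e2 : x * u * v = x * (n⁻¹ * u * n) := by rw [hv]; group
          rw [e1, e2]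
          ring
        rw [h1]
        have h2 : dl (n⁻¹ * u * n) l ∈ W Mi (w + 1 - i) := by
          have := dl_mem_W hG hl hun
          have e : w + 1 + 1 - (i + 1) = w + 1 - i := by omega
          rwa [e] at this
        have h3 := ih (w + 1 - i) (by omega) _ h2
        have e : w + 1 - i - 1 = w - i := by omega
        rw [e] at h3
        refine (W Mi _).add_mem h3 ?_
        have h4 := dl_mem_W hG hl hv'
        have e' : w + 1 + 1 - (i + 1 + 1) = w - i := by omega
        rw [e'] at h4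
        exact rt_mem_W hG h4 (hG.le i hu)

theorem P_le_W (hG : Good Mi) {c : ℕ} (hc : 0 < c) (hMc : ∀ i, c ≤ i → Mi i = ⊥) :
    ∀ k, P (Mi 0) k ≤ W Mi (c * k) := by
  intro k
  induction k with
  | zero =>
    intro l hl
    rw [Nat.mul_zero, mem_W_zero]
    exact hl
  | succ k ih =>
    intro l hl
    rw [mem_P_succ] at hl
    have e : c * (k + 1) = (c * k + c - 1) + 1 := by
      rw [Nat.mul_succ]; omega
    rw [e, mem_W_succ]
    intro i u hu
    by_cases hi : i < c
    · exact W_mono hG (by omega) (ih (hl u (hG.le i hu)))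
    · rw [hMc i (by omega), Subgroup.mem_bot] at hu
      have h0 : dl u l = 0 := by
        funext x
        rw [dl_apply, hu, mul_one, sub_self]; rfl
      rw [h0]
      exact (W Mi _).zero_mem

end

/-- polynomial functions separate the elements of `M` from `1` -/
def Sep {N : Type} [Group N] (M : Subgroup N) : Prop :=
  ∀ g ∈ M, g ≠ 1 → ∃ k, ∃ l ∈ P M k, l g ≠ l 1

theorem Sep.bot {N : Type} [Group N] : Sep (⊥ : Subgroup N) := by
  intro g hg h1
  exact absurd (Subgroup.mem_bot.1 hg) h1

open scoped commutatorElement in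
theorem good_chain {N : Type} [Group N] (M : Subgroup N) [hM : M.Normal] :
    Good (fun i => M ⊓ (⊤ : Subgroup N).lowerCentralSeries i) where
  le := by
    intro i
    rw [Subgroup.lowerCentralSeries_zero]
    exact inf_le_inf le_rfl le_top
  norm := fun i => inferInstance
  comm := by
    intro i u hu n
    refine ⟨M.mul_mem (M.inv_mem hu.1) ?_, ?_⟩
    · have := hM.conj_mem u hu.1 n⁻¹
      rwa [inv_inv] at this
    · have h1 : u⁻¹ * (n⁻¹ * u * n) = ⁅u⁻¹, n⁻¹⁆ := by
        rw [commutatorElement_def]; group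
      rw [h1, Subgroup.lowerCentralSeries_succ]
      exact Subgroup.commutator_mem_commutator (inv_mem hu.2) (Subgroup.mem_top _)

theorem Sep.step {N : Type} [Group N] [hN : Group.IsNilpotent N] (M M' : Subgroup N)
    [hMn : M.Normal] (x : N) (hx : ∀ j : ℤ, x ^ j ∈ M → j = 0)
    (hM' : ∀ y, y ∈ M' ↔ ∃ j : ℤ, x ^ (-j) * y ∈ M) (h : Sep M) : Sep M' := by
  classical
  obtain ⟨c, hc⟩ := Subgroup.nilpotent_iff_lowerCentralSeries.1 hN
  let J : N → ℤ := fun y => if h : ∃ j : ℤ, x ^ (-j) * y ∈ M then h.choose else 0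
  have hJ : ∀ y ∈ M', x ^ (-(J y)) * y ∈ M := by
    intro y hy
    have h1 := (hM' y).1 hy
    have h2 : J y = h1.choose := dif_pos h1
    rw [h2]
    exact h1.choose_spec
  have hJu : ∀ y ∈ M', ∀ j : ℤ, x ^ (-j) * y ∈ M → J y = j := by
    intro y hy j hj
    have h1 := M.mul_mem (hJ y hy) (M.inv_mem hj)
    have h2 : x ^ (-(J y)) * y * (x ^ (-j) * y)⁻¹ = x ^ (j - J y) := by
      rw [mul_inv_rev, ← zpow_neg, neg_neg, mul_assoc, mul_inv_cancel_left, ← zpow_add]
      congr 1; ring
    rw [h2] at h1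
    have := hx _ h1
    omega
  have hJmul : ∀ y ∈ M', ∀ z ∈ M', J (y * z) = J y + J z := by
    intro y hy z hz
    apply hJu _ (M'.mul_mem hy hz)
    have h1 := hMn.conj_mem _ (hJ y hy) (x ^ (-(J z)))
    have h2 := M.mul_mem h1 (hJ z hz)
    have h3 : x ^ (-(J y + J z)) * (y * z) =
        x ^ (-(J z)) * (x ^ (-(J y)) * y) * (x ^ (-(J z)))⁻¹ * (x ^ (-(J z)) * z) := by
      have e : x ^ (-(J y + J z)) = x ^ (-(J z)) * x ^ (-(J y)) := by
        rw [← zpow_add]; congr 1; ring
      rw [e]; group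
    rw [h3]
    exact h2
  have hJone : J 1 = 0 := by
    have := hJmul 1 M'.one_mem 1 M'.one_mem
    rw [mul_one] at this
    omega
  intro g hg hg1
  by_cases hJg : J g = 0
  · -- coefficient functions
    have hgM : g ∈ M := by
      have := hJ g hg
      rwa [hJg, neg_zero, zpow_zero, one_mul] at this
    obtain ⟨k, l, hl, hlg⟩ := h g hgM hg1
    let Mi : ℕ → Subgroup N := fun i => M ⊓ (⊤ : Subgroup N).lowerCentralSeries i
    have hMi0 : Mi 0 = M := by
      show M ⊓ (⊤ : Subgroup N).lowerCentralSeries 0 = M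
      rw [Subgroup.lowerCentralSeries_zero, inf_top_eq]
    have hG : Good Mi := good_chain M
    have hMc : ∀ i, c + 1 ≤ i → Mi i = ⊥ := by
      intro i hi
      have h1 := Subgroup.lowerCentralSeries_antitone (S := (⊤ : Subgroup N))
        (show c ≤ i by omega)
      rw [hc, le_bot_iff] at h1
      show M ⊓ (⊤ : Subgroup N).lowerCentralSeries i = ⊥
      rw [h1, inf_bot_eq]
    have hlW : l ∈ W Mi ((c + 1) * k) := P_le_W hG (Nat.succ_pos c) hMc k (by rw [hMi0]; exact hl)
    have key : ∀ w, ∀ μ ∈ W Mi w, (fun y => μ (x ^ (-(J y)) * y)) ∈ P M' w := by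
      intro w
      induction w with
      | zero =>
        intro μ hμ
        rw [mem_W_zero, hMi0] at hμ
        intro y hy
        exact hμ _ (hJ y hy)
      | succ w ih =>
        intro μ hμ
        rw [mem_P_succ]
        intro n hn
        set i := J n with hi
        set u := x ^ (-i) * n with hu
        have huM : u ∈ M := hJ n hn
        have hμ1 : cj (x ^ i) (rt u μ) - μ ∈ W Mi w := by
          have e : cj (x ^ i) (rt u μ) - μ = (cj (x ^ i) (rt u μ) - rt u μ) + dl u μ := by
            rw [dl_eq]; abel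
          rw [e]
          have hu0 : u ∈ Mi 0 := by rw [hMi0]; exact huM
          have h1 : rt u μ ∈ W Mi (w + 1) := rt_mem_W hG hμ hu0
          have h2 := cj_sub_mem hG (x ^ i) (w + 1) _ h1
          have h3 := dl_mem_W hG hμ hu0
          exact (W Mi w).add_mem h2 h3
        refine P_congr ?_ (ih _ hμ1)
        intro y hy
        rw [dl_apply, Pi.sub_apply, cj_apply, rt_apply, hJmul y hy n hn]
        congr 2
        rw [hu, neg_add, zpow_add, ← hi]
        have e : (x ^ i)⁻¹ = x ^ (-i) := (zpow_neg x i).symm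
        rw [e]
        have e2 : x ^ (-(J y)) * x ^ (-i) = x ^ (-i) * x ^ (-(J y)) := by
          rw [← zpow_add, ← zpow_add, add_comm]
        rw [e2]
        have e3 : x ^ i * (x ^ (-i) * n) = n := by
          rw [← mul_assoc, ← zpow_add, add_neg_cancel, zpow_zero, one_mul]
        rw [mul_assoc _ (x ^ i), e3]
        group
    refine ⟨_, _, key _ l hlW, ?_⟩
    show l (x ^ (-(J g)) * g) ≠ l (x ^ (-(J 1)) * 1)
    rw [hJg, hJone, neg_zero, zpow_zero, one_mul, mul_one]
    exact hlg
  · refine ⟨2, fun y => (J y : ℚ), ?_, ?_⟩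
    · rw [mem_P_succ]
      intro m hm
      rw [mem_P_succ]
      intro n hn y hy
      rw [dl_apply, dl_apply, dl_apply, hJmul _ (M'.mul_mem hy hn) _ hm, hJmul _ hy _ hm]
      push_cast
      ring
    · show (J g : ℚ) ≠ (J 1 : ℚ)
      rw [hJone]
      exact_mod_cast hJg

end Pool.Agent.H44R2.WrN
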