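import Pool.Agent.H44R2.WrN.PolyFn
import Pool.Agent.Helper189.OD.Malcev
import Pool.Agent.Helper111.EN.NS

/-!
Polynomial functions separate the points of a finitely generated torsion-free nilpotent group.
-/

set_option autoImplicit false

namespace Pool.Agent.H44R2.WrN

open Subgroup

theorem wf_of_fg {N : Type} [Group N] (h : ∀ K : Subgroup N, K.FG) :
    WellFoundedGT (Subgroup N) := by
  rw [wellFoundedGT_iff_monotone_chain_condition]
  intro a
  obtain ⟨S, hS⟩ := h (⨆ n, a n)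
  have hdir : Directed (· ≤ ·) (fun n => a n) := a.monotone.directed_le
  have h1 : ∀ s ∈ S, ∃ n, s ∈ a n := by
    intro s hs
    have : s ∈ ⨆ n, a n := by
      rw [← hS]; exact subset_closure hs
    exact (Subgroup.mem_iSup_of_directed hdir).1 this
  choose! f hf using h1
  refine ⟨S.sup f, fun m hm => le_antisymm (a.monotone hm) ?_⟩
  refine le_trans (le_iSup (fun n => a n) m) ?_
  rw [← hS, closure_le]
  intro s hs
  exact a.monotone (Finset.le_sup (f := f) hs) (hf s hs)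

theorem center_ne_bot {Q : Type} [Group Q] (hn : Group.IsNilpotent Q) [Nontrivial Q] :
    ∃ x ∈ center Q, x ≠ 1 := by
  have h : center Q ≠ ⊥ := Group.IsNilpotent.center_ne_bot Q
  obtain ⟨x, hx⟩ := (Subgroup.ne_bot_iff_exists_ne_one).1 h
  exact ⟨x, x.2, fun h => hx (Subtype.ext h)⟩

theorem exists_isolated {Q : Type} [Group Q] (hn : Group.IsNilpotent Q) [Nontrivial Q]
    (htf : OD.TF Q) (hwf : WellFoundedGT (Subgroup Q)) :
    ∃ x ∈ center Q, x ≠ 1 ∧ ∀ y : Q, ∀ k : ℕ, 0 < k → y ^ k ∈ zpowers x → y ∈ zpowers x := by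
  obtain ⟨x0, hx0, hx01⟩ := center_ne_bot hn
  let s : Set (Subgroup Q) := {H | ∃ x ∈ center Q, x ≠ 1 ∧ H = zpowers x}
  have hs : s.Nonempty := ⟨_, x0, hx0, hx01, rfl⟩
  obtain ⟨H, ⟨x, hx, hx1, rfl⟩, hmax⟩ := hwf.wf.has_min s hs
  refine ⟨x, hx, hx1, ?_⟩
  intro y k hk hyk
  by_cases hy1 : y = 1
  · rw [hy1]; exact one_mem _
  have hyc : y ∈ center Q := by
    apply OD.center_isol hn htf y k hk
    exact (zpowers_le.2 hx) hyk
  obtain ⟨j, hj⟩ := mem_zpowers_iff.1 hyk
  -- x ^ j = y ^ k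
  have hk0 : (k : ℤ) ≠ 0 := by omega
  set g : ℤ := ((Int.gcd (k : ℤ) j : ℕ) : ℤ) with hg
  have hgpos : 0 < Int.gcd (k : ℤ) j := Int.gcd_pos_of_ne_zero_left _ hk0
  obtain ⟨k', hk'⟩ : g ∣ k := Int.gcd_dvd_left _ _
  obtain ⟨j', hj'⟩ : g ∣ j := Int.gcd_dvd_right _ _
  have hcop : IsCoprime k' j' := by
    have h1 := Int.gcd_eq_gcd_ab k j
    rw [← hg] at h1
    refine ⟨Int.gcdA k j, Int.gcdB k j, ?_⟩
    have hg0 : g ≠ 0 := by rw [hg]; exact_mod_cast hgpos.ne'
    apply mul_left_cancel₀ hg0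
    calc g * (Int.gcdA k j * k' + Int.gcdB k j * j')
        = (g * k') * Int.gcdA k j + (g * j') * Int.gcdB k j := by ring
      _ = k * Int.gcdA k j + j * Int.gcdB k j := by rw [← hk', ← hj']
      _ = g * 1 := by rw [← h1, mul_one]
  obtain ⟨u, v, huv⟩ := hcop
  have hcomm : ∀ a b : ℤ, Commute (x ^ a) (y ^ b) := by
    intro a b
    exact (show Commute x y from Subgroup.mem_center_iff.1 hyc x).zpow_zpow a b
  have hroot : y ^ k' = x ^ j' := by
    have h1 : (y ^ k' * (x ^ j')⁻¹) ^ (Int.gcd k j) = 1 := by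
      rw [Commute.mul_pow]
      · rw [inv_pow, ← zpow_natCast (y ^ k'), ← zpow_natCast (x ^ j'), ← zpow_mul, ← zpow_mul]
        rw [mul_comm k', mul_comm j', ← hg, ← hk', ← hj', hj, zpow_natCast, mul_inv_cancel]
      · exact ((hcomm j' k').symm).inv_right
    have h2 := htf _ _ hgpos h1
    exact mul_inv_eq_one.1 h2
  set z := x ^ u * y ^ v with hz
  have hzk : z ^ k' = x := by
    rw [hz, (hcomm u v).mul_zpow, ← zpow_mul, ← zpow_mul, mul_comm v k', zpow_mul y, hroot,
      ← zpow_mul, ← zpow_add]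
    have : u * k' + j' * v = 1 := by rw [← huv]; ring
    rw [this, zpow_one]
  have hzj : z ^ j' = y := by
    rw [hz, (hcomm u v).mul_zpow, ← zpow_mul, ← zpow_mul, mul_comm u j', zpow_mul x, ← hroot,
      ← zpow_mul, ← zpow_add]
    have : k' * u + v * j' = 1 := by rw [← huv]; ring
    rw [this, zpow_one]
  have hz1 : z ≠ 1 := by
    intro h
    rw [h, one_zpow] at hzk
    exact hx1 hzk.symm
  have hzc : z ∈ center Q := mul_mem (zpow_mem hx _) (zpow_mem hyc _)
  have hle : zpowers x ≤ zpowers z := by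
    rw [zpowers_le]; exact mem_zpowers_iff.2 ⟨_, hzk⟩
  have hnlt := hmax (zpowers z) ⟨z, hzc, hz1, rfl⟩
  have heq : zpowers x = zpowers z := by
    by_contra hne
    exact hnlt (lt_of_le_of_ne hle hne)
  rw [heq]
  exact mem_zpowers_iff.2 ⟨_, hzj⟩

theorem sep_top {N : Type} [Group N] [hfg : Group.FG N] (hn : Group.IsNilpotent N)
    (htf : OD.TF N) : Sep (⊤ : Subgroup N) := by
  have hwf : WellFoundedGT (Subgroup N) := by
    apply wf_of_fg
    have h1 := Pool.Agent.Helper111.EN.NSc.NS_of_nilpotent_fg (⊤ : Subgroup N)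
      (inferInstance) hfg.1
    exact fun K => h1 K le_top
  let s : Set (Subgroup N) := {M | M.Normal ∧ (∀ y : N, ∀ k : ℕ, 0 < k → y ^ k ∈ M → y ∈ M) ∧
    Sep M}
  have hs : s.Nonempty := by
    refine ⟨⊥, inferInstance, ?_, Sep.bot⟩
    intro y k hk hy
    exact Subgroup.mem_bot.2 (htf y k hk (Subgroup.mem_bot.1 hy))
  obtain ⟨M, ⟨hMn, hMi, hMs⟩, hmax⟩ := hwf.wf.has_min s hs
  by_cases hM : M = ⊤
  · rw [← hM]; exact hMs
  exfalso
  have := hMn
  have : Nontrivial (N ⧸ M) := by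
    rw [QuotientGroup.nontrivial_iff]; exact hM
  have hnQ : Group.IsNilpotent (N ⧸ M) := inferInstance
  have htfQ : OD.TF (N ⧸ M) := by
    intro q k hk hq
    obtain ⟨y, rfl⟩ := QuotientGroup.mk_surjective q
    rw [← QuotientGroup.mk_pow, QuotientGroup.eq_one_iff] at hq
    rw [QuotientGroup.eq_one_iff]
    exact hMi y k hk hq
  have hwfQ : WellFoundedGT (Subgroup (N ⧸ M)) := by
    apply wf_of_fg
    have : Group.FG (N ⧸ M) := inferInstance
    have h1 := Pool.Agent.Helper111.EN.NSc.NS_of_nilpotent_fg (⊤ : Subgroup (N ⧸ M))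
      (inferInstance) this.1
    exact fun K => h1 K le_top
  obtain ⟨xb, hxc, hx1, hiso⟩ := exists_isolated hnQ htfQ hwfQ
  obtain ⟨x, rfl⟩ := QuotientGroup.mk_surjective xb
  let M' : Subgroup N := (zpowers (x : N ⧸ M)).comap (QuotientGroup.mk' M)
  have hMn' : M'.Normal := by
    have : (zpowers (x : N ⧸ M)).Normal := by
      constructor
      intro n hn g
      have hnc : n ∈ center (N ⧸ M) := (zpowers_le.2 hxc) hn
      rw [Subgroup.mem_center_iff.1 hnc g, mul_inv_cancel_right]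
      exact hn
    exact this.comap _
  have hM' : ∀ y, y ∈ M' ↔ ∃ j : ℤ, x ^ (-j) * y ∈ M := by
    intro y
    show ((y : N ⧸ M) ∈ zpowers (x : N ⧸ M)) ↔ _
    rw [mem_zpowers_iff]
    refine exists_congr fun j => ?_
    rw [← QuotientGroup.mk_zpow, QuotientGroup.eq, ← zpow_neg]
  have hxj : ∀ j : ℤ, x ^ j ∈ M → j = 0 := by
    intro j hj
    by_contra hj0
    have h1 : x ^ j.natAbs ∈ M := by
      rcases Int.natAbs_eq j with h | h
      · rw [h, zpow_natCast] at hj; exact hj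
      · rw [h, zpow_neg, inv_mem_iff, zpow_natCast] at hj; exact hj
    have h2 := hMi x _ (Int.natAbs_pos.2 hj0) h1
    exact hx1 ((QuotientGroup.eq_one_iff x).2 h2)
  have hsep' : Sep M' := Sep.step M M' x hxj hM' hMs
  have hMem : M' ∈ s := by
    refine ⟨hMn', ?_, hsep'⟩
    intro y k hk hy
    refine hiso _ k hk ?_
    have : ((y ^ k : N) : N ⧸ M) ∈ zpowers (x : N ⧸ M) := hy
    rwa [QuotientGroup.mk_pow] at this
  refine hmax M' hMem ?_
  refine lt_of_le_of_ne ?_ ?_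
  · intro y hy
    rw [hM']
    exact ⟨0, by rwa [neg_zero, zpow_zero, one_mul]⟩
  · intro h
    have : x ∈ M' := by
      rw [hM']
      refine ⟨1, ?_⟩
      rw [zpow_neg, zpow_one, inv_mul_cancel]
      exact M.one_mem
    rw [← h] at this
    exact hx1 ((QuotientGroup.eq_one_iff x).2 this)

end Pool.Agent.H44R2.WrN
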