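import Mathlib

/-!
The stability group of a finite filtration of a rational vector space is nilpotent and
torsion-free.
-/

set_option autoImplicit false

namespace Pool.Agent.H44R2.WrN

section

variable {V : Type} [AddCommGroup V] [Module ℚ V] {F : ℕ → Submodule ℚ V}

theorem pres_of (hF : Antitone F) {r t : ℕ} {g : Module.End ℚ V} {v : V} (hv : v ∈ F t)
    (h : g v - v ∈ F (t + r)) : g v ∈ F t := by
  have h1 : g v = (g v - v) + v := by abel
  rw [h1]
  exact (F t).add_mem (hF (by omega) h) hv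

/-- Units moving `F t` modulo `F (t + r)` trivially. -/
def Stab (F : ℕ → Submodule ℚ V) (hF : Antitone F) (r : ℕ) : Subgroup (Module.End ℚ V)ˣ where
  carrier := {g | (∀ t, ∀ v ∈ F t, (g : Module.End ℚ V) v - v ∈ F (t + r)) ∧
    ∀ t, ∀ v ∈ F t, ((g⁻¹ : (Module.End ℚ V)ˣ) : Module.End ℚ V) v - v ∈ F (t + r)}
  mul_mem' := by
    have key : ∀ g h : Module.End ℚ V, (∀ t, ∀ v ∈ F t, g v - v ∈ F (t + r)) →
        (∀ t, ∀ v ∈ F t, h v - v ∈ F (t + r)) → ∀ t, ∀ v ∈ F t, (g * h) v - v ∈ F (t + r) := by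
      intro g h hg hh t v hv
      have h1 : (g * h) v - v = g (h v) - h v + (h v - v) := by
        rw [Module.End.mul_apply]; abel
      rw [h1]
      exact (F _).add_mem (hg t _ (pres_of hF hv (hh t v hv))) (hh t v hv)
    rintro a b ⟨ha, ha'⟩ ⟨hb, hb'⟩
    refine ⟨?_, ?_⟩
    · rw [Units.val_mul]; exact key _ _ ha hb
    · rw [mul_inv_rev, Units.val_mul]; exact key _ _ hb' ha'
  one_mem' := by
    refine ⟨?_, ?_⟩ <;> intro t v _ <;> simp
  inv_mem' := by
    rintro a ⟨ha, ha'⟩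
    refine ⟨ha', ?_⟩
    rw [inv_inv]; exact ha

theorem mem_Stab {hF : Antitone F} {r : ℕ} {g : (Module.End ℚ V)ˣ} : g ∈ Stab F hF r ↔
    (∀ t, ∀ v ∈ F t, (g : Module.End ℚ V) v - v ∈ F (t + r)) ∧
    ∀ t, ∀ v ∈ F t, ((g⁻¹ : (Module.End ℚ V)ˣ) : Module.End ℚ V) v - v ∈ F (t + r) := Iff.rfl

theorem comm_aux (hF : Antitone F) {r s : ℕ} {x g : (Module.End ℚ V)ˣ} (hx : x ∈ Stab F hF r)
    (hg : g ∈ Stab F hF s) : ∀ t, ∀ v ∈ F t,
      (((x * g) * (g * x)⁻¹ : (Module.End ℚ V)ˣ) : Module.End ℚ V) v - v ∈ F (t + (r + s)) := by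
  intro t v hv
  set u : V := (((g * x)⁻¹ : (Module.End ℚ V)ˣ) : Module.End ℚ V) v with hu
  have hgx : ((g * x)⁻¹ : (Module.End ℚ V)ˣ) ∈ Stab F hF (min r s) := by
    apply Subgroup.inv_mem
    apply Subgroup.mul_mem
    · exact ⟨fun t v hv => hF (by omega) (hg.1 t v hv), fun t v hv => hF (by omega) (hg.2 t v hv)⟩
    · exact ⟨fun t v hv => hF (by omega) (hx.1 t v hv), fun t v hv => hF (by omega) (hx.2 t v hv)⟩
  have hut : u ∈ F t := pres_of hF hv (hgx.1 t v hv)
  have hv' : v = ((g * x : (Module.End ℚ V)ˣ) : Module.End ℚ V) u := by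
    rw [hu, ← Module.End.mul_apply, ← Units.val_mul, mul_inv_cancel]; rfl
  have h1 : (((x * g) * (g * x)⁻¹ : (Module.End ℚ V)ˣ) : Module.End ℚ V) v - v =
      ((x : Module.End ℚ V) ((g : Module.End ℚ V) u - u) - ((g : Module.End ℚ V) u - u)) -
      ((g : Module.End ℚ V) ((x : Module.End ℚ V) u - u) - ((x : Module.End ℚ V) u - u)) := by
    rw [Units.val_mul, Module.End.mul_apply, ← hu]
    conv_lhs => rw [hv']
    rw [Units.val_mul, Units.val_mul, Module.End.mul_apply, Module.End.mul_apply, map_sub, map_sub]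
    abel
  rw [h1]
  refine (F _).sub_mem ?_ ?_
  · have := hx.1 (t + s) _ (hg.1 t u hut)
    exact hF (by omega) this
  · have := hg.1 (t + r) _ (hx.1 t u hut)
    exact hF (by omega) this

theorem comm_mem_Stab (hF : Antitone F) {r s : ℕ} {x g : (Module.End ℚ V)ˣ}
    (hx : x ∈ Stab F hF r) (hg : g ∈ Stab F hF s) : x * g * x⁻¹ * g⁻¹ ∈ Stab F hF (r + s) := by
  refine ⟨?_, ?_⟩
  · have h := comm_aux hF hx hg
    rw [mul_inv_rev, ← mul_assoc] at h
    exact h
  · have h := comm_aux hF hg hx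
    have h2 : (x * g * x⁻¹ * g⁻¹)⁻¹ = g * x * (x * g)⁻¹ := by group
    rw [h2, add_comm r s]
    exact h

theorem Stab_eq_one (hF : Antitone F) {T : ℕ} (h0 : F 0 = ⊤) (hT : F T = ⊥)
    {g : (Module.End ℚ V)ˣ} (hg : g ∈ Stab F hF T) : g = 1 := by
  apply Units.ext
  apply LinearMap.ext
  intro v
  have h := hg.1 0 v (by rw [h0]; trivial)
  rw [Nat.zero_add, hT, Submodule.mem_bot, sub_eq_zero] at h
  rw [h]; rfl

theorem Stab_mono (hF : Antitone F) {r s : ℕ} (h : r ≤ s) : Stab F hF s ≤ Stab F hF r := by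
  intro g hg
  exact ⟨fun t v hv => hF (by omega) (hg.1 t v hv), fun t v hv => hF (by omega) (hg.2 t v hv)⟩

theorem Stab_nilpotent (hF : Antitone F) {T : ℕ} (h0 : F 0 = ⊤) (hT : F T = ⊥) :
    Group.IsNilpotent (Stab F hF 1) := by
  rw [Subgroup.nilpotent_iff_finite_descending_central_series]
  refine ⟨T, fun r => (Stab F hF (r + 1)).subgroupOf (Stab F hF 1), ⟨?_, ?_⟩, ?_⟩
  · show (Stab F hF 1).subgroupOf (Stab F hF 1) = ⊤
    exact Subgroup.subgroupOf_self _
  · intro x n hx g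
    rw [Subgroup.mem_subgroupOf] at hx ⊢
    have := comm_mem_Stab hF hx g.2
    exact this
  · rw [eq_bot_iff]
    intro x hx
    rw [Subgroup.mem_subgroupOf] at hx
    rw [Subgroup.mem_bot]
    apply Subtype.ext
    exact Stab_eq_one hF h0 hT (Stab_mono hF (by omega) hx)

theorem pow_sub (hF : Antitone F) {r : ℕ} (hr : 1 ≤ r) {g : (Module.End ℚ V)ˣ}
    (hg : g ∈ Stab F hF r) {t : ℕ} {v : V} (hv : v ∈ F t) (k : ℕ) :
    ((g ^ k : (Module.End ℚ V)ˣ) : Module.End ℚ V) v - v - (k : ℚ) • ((g : Module.End ℚ V) v - v)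
      ∈ F (t + r + 1) := by
  induction k with
  | zero => simp
  | succ k ih =>
    set u := (g : Module.End ℚ V) v - v with hu
    set e := ((g ^ k : (Module.End ℚ V)ˣ) : Module.End ℚ V) v - v - (k : ℚ) • u with he
    have hut : u ∈ F (t + r) := hg.1 t v hv
    have hg1 : g ∈ Stab F hF 1 := Stab_mono hF hr hg
    have h1 : ((g ^ (k + 1) : (Module.End ℚ V)ˣ) : Module.End ℚ V) v - v - ((k + 1 : ℕ) : ℚ) • u =
        (k : ℚ) • ((g : Module.End ℚ V) u - u) + (g : Module.End ℚ V) e := by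
      have h2 : ((g ^ k : (Module.End ℚ V)ˣ) : Module.End ℚ V) v = e + v + (k : ℚ) • u := by
        rw [he]; abel
      have h3 : (g : Module.End ℚ V) v = u + v := by rw [hu]; abel
      clear_value u e
      rw [pow_succ', Units.val_mul, Module.End.mul_apply, h2, map_add, map_add, map_smul, h3]
      push_cast
      module
    rw [h1]
    refine (F _).add_mem ((F _).smul_mem _ (hg1.1 _ _ hut)) ?_
    exact pres_of hF ih (hg1.1 _ _ ih)

theorem Stab_tf (hF : Antitone F) {T : ℕ} (h0 : F 0 = ⊤) (hT : F T = ⊥)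
    {g : (Module.End ℚ V)ˣ} (hg : g ∈ Stab F hF 1) {k : ℕ} (hk : 0 < k) (h : g ^ k = 1) :
    g = 1 := by
  have key : ∀ r, g ∈ Stab F hF (r + 1) := by
    intro r
    induction r with
    | zero => exact hg
    | succ r ih =>
      have h1 : ∀ t, ∀ v ∈ F t, (g : Module.End ℚ V) v - v ∈ F (t + (r + 1 + 1)) := by
        intro t v hv
        have h2 := pow_sub hF (by omega) ih hv k
        rw [h] at h2
        have h3 : ((1 : (Module.End ℚ V)ˣ) : Module.End ℚ V) v - v = 0 := by simp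
        rw [h3, zero_sub, neg_mem_iff] at h2
        have h4 := (F _).smul_mem ((k : ℚ)⁻¹) h2
        rw [smul_smul, inv_mul_cancel₀ (by positivity), one_smul] at h4
        exact h4
      refine ⟨h1, ?_⟩
      intro t v hv
      have h5 : ((g⁻¹ : (Module.End ℚ V)ˣ) : Module.End ℚ V) v - v =
          - ((g⁻¹ : (Module.End ℚ V)ˣ) : Module.End ℚ V) ((g : Module.End ℚ V) v - v) := by
        rw [map_sub, ← Module.End.mul_apply, ← Units.val_mul, inv_mul_cancel]
        simp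
      rw [h5]
      refine (F _).neg_mem ?_
      exact pres_of hF (h1 t v hv) (hg.2 _ _ (h1 t v hv))
  have := Stab_mono hF (Nat.le_succ T) (key T)
  exact Stab_eq_one hF h0 hT this

end

end Pool.Agent.H44R2.WrN
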