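import Pool.Agent.H44R2.WrN.PolyFn
import Pool.Agent.H44R2.WrN.Stab

/-!
The torsion-free nilpotent groups `Gam N K M` with their approximations of the wreath product
`N ≀ ℤ` on the window `[-M, M]`.
-/

set_option autoImplicit false

namespace Pool.Agent.H44R2.WrN

section Dz

variable {A : Type} [AddCommGroup A] [Module ℚ A]

/-- difference operator on sequences -/
def Dz (A : Type) [AddCommGroup A] [Module ℚ A] : Module.End ℚ (ℤ → A) where
  toFun s := fun k => s (k + 1) - s k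
  map_add' a b := by funext k; simp only [Pi.add_apply]; abel
  map_smul' c a := by
    funext k
    simp only [Pi.smul_apply, RingHom.id_apply, smul_sub]

theorem Dz_apply (s : ℤ → A) (k : ℤ) : Dz A s k = s (k + 1) - s k := rfl

/-- translation of sequences -/
def Tz (A : Type) [AddCommGroup A] [Module ℚ A] (a : ℤ) : Module.End ℚ (ℤ → A) where
  toFun s := fun k => s (k - a)
  map_add' _ _ := rfl
  map_smul' _ _ := rfl

theorem Tz_apply (a : ℤ) (s : ℤ → A) (k : ℤ) : Tz A a s k = s (k - a) := rfl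

theorem Tz_zero : Tz A 0 = 1 := by
  apply LinearMap.ext; intro s; funext k
  rw [Tz_apply, sub_zero]; rfl

theorem Tz_add (a b : ℤ) : Tz A (a + b) = Tz A a * Tz A b := by
  apply LinearMap.ext; intro s; funext k
  rw [Module.End.mul_apply, Tz_apply, Tz_apply, Tz_apply]
  congr 1; ring

theorem Dz_eq : Dz A = Tz A (-1) - 1 := by
  apply LinearMap.ext; intro s; funext k
  rw [Dz_apply, LinearMap.sub_apply, Pi.sub_apply, Tz_apply, sub_neg_eq_add]; rfl

theorem Dz_Tz (a : ℤ) : Commute (Dz A) (Tz A a) := by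
  rw [Dz_eq]
  apply Commute.sub_left
  · show Tz A (-1) * Tz A a = Tz A a * Tz A (-1)
    rw [← Tz_add, ← Tz_add, add_comm]
  · exact Commute.one_left _

theorem Dz_pow_Tz (a : ℤ) (n : ℕ) (s : ℤ → A) (k : ℤ) :
    (Dz A ^ n) (Tz A a s) k = (Dz A ^ n) s (k - a) := by
  have h := ((Dz_Tz (A := A) a).pow_left n).eq
  rw [← Module.End.mul_apply, h, Module.End.mul_apply, Tz_apply]

theorem Dz_pow_smul (L : ℕ) (p : ℤ → ℚ) (j : ℤ) (μ : A) :
    (Dz A ^ L) (fun k => p (k - j) • μ) = fun k => (Dz ℚ ^ L) p (k - j) • μ := by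
  induction L generalizing p with
  | zero => rfl
  | succ L ih =>
    rw [pow_succ, Module.End.mul_apply, pow_succ, Module.End.mul_apply]
    rw [← ih (Dz ℚ p)]
    congr 1
    funext k
    rw [Dz_apply, Dz_apply, sub_smul]
    have : k + 1 - j = k - j + 1 := by ring
    rw [this]

theorem Dz_pow_mul_id (L : ℕ) (q : ℤ → ℚ) (h : (Dz ℚ ^ L) q = 0) :
    (Dz ℚ ^ (L + 1)) (fun k => (k : ℚ) * q k) = 0 := by
  induction L generalizing q with
  | zero =>
    have hq : q = 0 := h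
    rw [hq]
    simp only [Pi.zero_apply, mul_zero]
    exact map_zero _
  | succ L ih =>
    have h1 : (Dz ℚ ^ L) (Dz ℚ q) = 0 := by rw [← Module.End.mul_apply, ← pow_succ]; exact h
    have h2 := ih _ h1
    rw [pow_succ, Module.End.mul_apply]
    have h3 : Dz ℚ (fun k : ℤ => (k : ℚ) * q k) = (fun k : ℤ => (k : ℚ) * (Dz ℚ q) k) + (q + Dz ℚ q) := by
      funext k
      rw [Pi.add_apply, Pi.add_apply, Dz_apply, Dz_apply]
      push_cast
      ring
    rw [h3, map_add, h2, zero_add, map_add, h, zero_add, ← Module.End.mul_apply, ← pow_succ,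
      pow_succ', Module.End.mul_apply, h, map_zero]

theorem exists_p (S : Finset ℤ) (hS : (0 : ℤ) ∉ S) : ∃ L : ℕ, 0 < L ∧ ∃ p : ℤ → ℚ,
    (Dz ℚ ^ L) p = 0 ∧ p 0 = 1 ∧ ∀ a ∈ S, p a = 0 := by
  classical
  induction S using Finset.induction_on with
  | empty =>
    refine ⟨1, one_pos, fun _ => 1, ?_, rfl, ?_⟩
    · funext k
      rw [pow_one, Dz_apply, sub_self]; rfl
    · intro a ha; simp at ha
  | insert a S ha ih =>
    rw [Finset.mem_insert, not_or] at hS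
    obtain ⟨L, hL, p, hp, hp0, hpS⟩ := ih hS.2
    have ha0 : (a : ℚ) ≠ 0 := by exact_mod_cast Ne.symm hS.1
    refine ⟨L + 1, Nat.succ_pos L, p - (a : ℚ)⁻¹ • (fun k : ℤ => (k : ℚ) * p k), ?_, ?_, ?_⟩
    · rw [map_sub, map_smul, Dz_pow_mul_id L p hp, smul_zero, sub_zero, pow_succ',
        Module.End.mul_apply, hp, map_zero]
    · simp [hp0]
    · intro b hb
      rw [Pi.sub_apply, Pi.smul_apply, smul_eq_mul]
      rcases Finset.mem_insert.1 hb with rfl | hb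
      · rw [← mul_assoc, inv_mul_cancel₀ ha0, one_mul, sub_self]
      · rw [hpS b hb]; ring

end Dz

section Pmono

variable {N : Type} [Group N]

theorem P_mono_succ (M : Subgroup N) (k : ℕ) : P M k ≤ P M (k + 1) := by
  induction k with
  | zero =>
    intro l hl
    rw [mem_P_succ]
    intro m hm x hx
    rw [dl_apply, hl _ (M.mul_mem hx hm), hl x hx, sub_zero]
  | succ k ih =>
    intro l hl
    rw [mem_P_succ] at hl ⊢
    exact fun m hm => ih (hl m hm)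

theorem P_mono (M : Subgroup N) : Monotone (P M) := monotone_nat_of_le_succ (P_mono_succ M)

theorem dl_mem_P (M : Subgroup N) {k : ℕ} {l : N → ℚ} (hl : l ∈ P M k) {m : N} (hm : m ∈ M) :
    dl m l ∈ P M (k - 1) := by
  rcases k with _ | k
  · intro x hx
    rw [dl_apply, hl _ (M.mul_mem hx hm), hl x hx, sub_zero]
  · exact mem_P_succ.1 hl m hm

theorem rt_mul (m n : N) (l : N → ℚ) : rt (m * n) l = rt m (rt n l) := by
  funext x
  rw [rt_apply, rt_apply, rt_apply, mul_assoc]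

end Pmono

section Win

variable {N : Type} [Group N]

/-- the generator of the base part at place `j` -/
def pm (p : ℤ → ℚ) (j : ℤ) : (N → ℚ) →ₗ[ℚ] (ℤ → N → ℚ) where
  toFun μ := fun k => p (k - j) • μ
  map_add' a b := by funext k; simp only [smul_add, Pi.add_apply]
  map_smul' c a := by
    funext k
    simp only [RingHom.id_apply, Pi.smul_apply]
    rw [smul_comm]

omit [Group N] in
theorem pm_apply (p : ℤ → ℚ) (j : ℤ) (μ : N → ℚ) (k : ℤ) : pm p j μ k = p (k - j) • μ := rfl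

/-- the action of the base group -/
def Ez (p : ℤ → ℚ) (S : Finset ℤ) (b : ℤ → N) : Module.End ℚ (ℤ → N → ℚ) :=
  1 + ∑ j ∈ S, (pm p j ∘ₗ dl (b j)) ∘ₗ LinearMap.proj j

theorem Ez_apply (p : ℤ → ℚ) (S : Finset ℤ) (b : ℤ → N) (s : ℤ → N → ℚ) :
    Ez p S b s = s + ∑ j ∈ S, pm p j (dl (b j) (s j)) := by
  rw [Ez, LinearMap.add_apply, LinearMap.sum_apply]
  rfl

theorem Ez_apply_mem {p : ℤ → ℚ} {S : Finset ℤ} (hp0 : p 0 = 1)
    (hpS : ∀ i ∈ S, ∀ j ∈ S, i ≠ j → p (i - j) = 0) (b : ℤ → N) (s : ℤ → N → ℚ) {i : ℤ}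
    (hi : i ∈ S) : Ez p S b s i = rt (b i) (s i) := by
  rw [Ez_apply, Pi.add_apply, Finset.sum_apply, Finset.sum_eq_single i]
  · rw [pm_apply, sub_self, hp0, one_smul, dl_eq]; abel
  · intro j hj hji
    rw [pm_apply, hpS i hi j hj (Ne.symm hji), zero_smul]
  · intro h; exact absurd hi h

theorem Ez_mul {p : ℤ → ℚ} {S : Finset ℤ} (hp0 : p 0 = 1)
    (hpS : ∀ i ∈ S, ∀ j ∈ S, i ≠ j → p (i - j) = 0) (b b' : ℤ → N) :
    Ez p S (b * b') = Ez p S b * Ez p S b' := by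
  apply LinearMap.ext
  intro s
  rw [Module.End.mul_apply, Ez_apply p S b, Ez_apply p S (b * b')]
  have h1 : ∑ j ∈ S, pm p j (dl (b j) (Ez p S b' s j)) =
      ∑ j ∈ S, pm p j (dl (b j) (rt (b' j) (s j))) := by
    refine Finset.sum_congr rfl fun j hj => ?_
    rw [Ez_apply_mem hp0 hpS b' s hj]
  rw [h1, Ez_apply, add_assoc, ← Finset.sum_add_distrib]
  congr 1
  refine Finset.sum_congr rfl fun j _ => ?_
  rw [← map_add]
  congr 1
  rw [Pi.mul_apply, dl_eq, dl_eq, dl_eq, rt_mul]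
  abel

theorem Ez_one (p : ℤ → ℚ) (S : Finset ℤ) : Ez p S (1 : ℤ → N) = 1 := by
  apply LinearMap.ext
  intro s
  rw [Ez_apply, Finset.sum_eq_zero, add_zero]
  · rfl
  · intro j _
    have : dl ((1 : ℤ → N) j) (s j) = 0 := by
      funext x
      rw [dl_apply, Pi.one_apply, mul_one, sub_self]; rfl
    rw [this, map_zero]

/-- equivariance, when the support of `b` and its translate lie in the window -/
theorem Tz_Ez (p : ℤ → ℚ) (S : Finset ℤ) (a : ℤ) (b : ℤ → N)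
    (h1 : ∀ j, b j ≠ 1 → j ∈ S) (h2 : ∀ j, b j ≠ 1 → j + a ∈ S) :
    Tz (N → ℚ) a * Ez p S b = Ez p S (fun i => b (i - a)) * Tz (N → ℚ) a := by
  classical
  apply LinearMap.ext
  intro s
  rw [Module.End.mul_apply, Module.End.mul_apply, Ez_apply, Ez_apply, map_add, map_sum]
  congr 1
  have hz : ∀ μ : N → ℚ, dl (1 : N) μ = 0 := by
    intro μ; funext x
    rw [dl_apply, mul_one, sub_self]; rfl
  have e1 : ∑ j ∈ S, Tz (N → ℚ) a (pm p j (dl (b j) (s j))) =
      ∑ j ∈ S.filter (fun j => b j ≠ 1), Tz (N → ℚ) a (pm p j (dl (b j) (s j))) := by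
    symm
    apply Finset.sum_filter_of_ne
    intro j _ hne hb
    apply hne
    rw [hb, hz, map_zero, map_zero]
  have e2 : ∑ i ∈ S, pm p i (dl (b (i - a)) (Tz (N → ℚ) a s i)) =
      ∑ i ∈ S.filter (fun i => b (i - a) ≠ 1), pm p i (dl (b (i - a)) (Tz (N → ℚ) a s i)) := by
    symm
    apply Finset.sum_filter_of_ne
    intro i _ hne hb
    apply hne
    rw [hb, hz, map_zero]
  rw [e1, e2]
  refine Finset.sum_bij (fun j _ => j + a) ?_ ?_ ?_ ?_
  · intro j hj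
    rw [Finset.mem_filter] at hj ⊢
    rw [add_sub_cancel_right]
    exact ⟨h2 j hj.2, hj.2⟩
  · intro i _ j _ hij
    exact add_right_cancel hij
  · intro i hi
    rw [Finset.mem_filter] at hi
    refine ⟨i - a, ?_, sub_add_cancel i a⟩
    rw [Finset.mem_filter]
    exact ⟨h1 _ hi.2, hi.2⟩
  · intro j _
    funext k
    rw [Tz_apply, pm_apply, pm_apply, Tz_apply, add_sub_cancel_right]
    congr 2
    ring

/-- the filtration -/
def Fz (N : Type) [Group N] (K L : ℕ) (t : ℕ) : Submodule ℚ (ℤ → N → ℚ) where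
  carrier := {s | (∀ k, s k ∈ P (⊤ : Subgroup N) (K - t / L)) ∧
    (∀ k, (Dz (N → ℚ) ^ (L - t % L)) s k ∈ P (⊤ : Subgroup N) (K - t / L - 1)) ∧
    (Dz (N → ℚ) ^ L) s = 0}
  add_mem' := by
    rintro a b ⟨h1, h2, h3⟩ ⟨h1', h2', h3'⟩
    refine ⟨fun k => Submodule.add_mem _ (h1 k) (h1' k), fun k => ?_, ?_⟩
    · rw [map_add]; exact Submodule.add_mem _ (h2 k) (h2' k)
    · rw [map_add, h3, h3', add_zero]
  zero_mem' := by
    refine ⟨fun k => Submodule.zero_mem _, fun k => ?_, map_zero _⟩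
    rw [map_zero]; exact Submodule.zero_mem _
  smul_mem' := by
    rintro c a ⟨h1, h2, h3⟩
    refine ⟨fun k => Submodule.smul_mem _ c (h1 k), fun k => ?_, ?_⟩
    · rw [map_smul]; exact Submodule.smul_mem _ c (h2 k)
    · rw [map_smul, h3, smul_zero]

theorem mem_Fz {K L t : ℕ} {s : ℤ → N → ℚ} : s ∈ Fz N K L t ↔
    (∀ k, s k ∈ P (⊤ : Subgroup N) (K - t / L)) ∧
    (∀ k, (Dz (N → ℚ) ^ (L - t % L)) s k ∈ P (⊤ : Subgroup N) (K - t / L - 1)) ∧
    (Dz (N → ℚ) ^ L) s = 0 := Iff.rfl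

theorem divmod_succ {L : ℕ} (hL : 0 < L) (t : ℕ) :
    (t % L + 1 < L ∧ (t + 1) / L = t / L ∧ (t + 1) % L = t % L + 1) ∨
    (t % L + 1 = L ∧ (t + 1) / L = t / L + 1 ∧ (t + 1) % L = 0) := by
  have h1 := Nat.div_add_mod t L
  have h2 := Nat.mod_lt t hL
  rcases Nat.lt_or_ge (t % L + 1) L with h | h
  · left
    refine ⟨h, ?_, ?_⟩
    · exact ((Nat.div_mod_unique (a := t + 1) (c := t % L + 1) (d := t / L) hL).2
        ⟨by omega, h⟩).1
    · exact ((Nat.div_mod_unique (a := t + 1) (c := t % L + 1) (d := t / L) hL).2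
        ⟨by omega, h⟩).2
  · right
    have h3 : t % L + 1 = L := by omega
    refine ⟨h3, ?_, ?_⟩
    · exact ((Nat.div_mod_unique (a := t + 1) (c := 0) (d := t / L + 1) hL).2
        ⟨by rw [Nat.mul_succ]; omega, hL⟩).1
    · exact ((Nat.div_mod_unique (a := t + 1) (c := 0) (d := t / L + 1) hL).2
        ⟨by rw [Nat.mul_succ]; omega, hL⟩).2

omit [Group N] in
theorem Dz_pt {A : Submodule ℚ (N → ℚ)} {s : ℤ → N → ℚ} (h : ∀ k, s k ∈ A) (k : ℤ) :
    Dz (N → ℚ) s k ∈ A := A.sub_mem (h _) (h _)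

theorem Fz_anti {K L : ℕ} (hL : 0 < L) : Antitone (Fz N K L) := by
  apply antitone_nat_of_succ_le
  intro t s hs
  rw [mem_Fz] at hs ⊢
  obtain ⟨h1, h2, h3⟩ := hs
  rcases divmod_succ hL t with ⟨ha, hb, hc⟩ | ⟨ha, hb, hc⟩
  · rw [hb] at h1 h2
    rw [hc] at h2
    refine ⟨h1, fun k => ?_, h3⟩
    have e : L - t % L = (L - (t % L + 1)) + 1 := by omega
    rw [e, pow_succ', Module.End.mul_apply]
    exact Dz_pt h2 k
  · rw [hb] at h1
    refine ⟨fun k => P_mono _ (by omega) (h1 k), fun k => ?_, h3⟩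
    have e : L - t % L = 1 := by omega
    rw [e, pow_one]
    have h1' : ∀ k, s k ∈ P (⊤ : Subgroup N) (K - t / L - 1) := by
      intro k
      have := h1 k
      rwa [show K - (t / L + 1) = K - t / L - 1 by omega] at this
    exact Dz_pt h1' k

theorem Fz_bot {K L : ℕ} (hL : 0 < L) : Fz N K L (K * L) = ⊥ := by
  rw [eq_bot_iff]
  intro s hs
  rw [mem_Fz] at hs
  have h1 := hs.1
  rw [Nat.mul_div_cancel _ hL, Nat.sub_self] at h1
  rw [Submodule.mem_bot]
  funext k x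
  exact h1 k x (Subgroup.mem_top x)

theorem Tz_mem_Fz {K L t : ℕ} {s : ℤ → N → ℚ} (hs : s ∈ Fz N K L t) (a : ℤ) :
    Tz (N → ℚ) a s ∈ Fz N K L t := by
  rw [mem_Fz] at hs ⊢
  obtain ⟨h1, h2, h3⟩ := hs
  refine ⟨fun k => h1 _, fun k => ?_, ?_⟩
  · rw [Dz_pow_Tz]; exact h2 _
  · funext k
    rw [Dz_pow_Tz, h3]; rfl

theorem Dz_mem_Fz {K L t : ℕ} (hL : 0 < L) {s : ℤ → N → ℚ} (hs : s ∈ Fz N K L t) :
    Dz (N → ℚ) s ∈ Fz N K L (t + 1) := by
  rw [mem_Fz] at hs ⊢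
  obtain ⟨h1, h2, h3⟩ := hs
  have h3' : (Dz (N → ℚ) ^ L) (Dz (N → ℚ) s) = 0 := by
    rw [← Module.End.mul_apply, ← pow_succ, pow_succ', Module.End.mul_apply, h3, map_zero]
  rcases divmod_succ hL t with ⟨ha, hb, hc⟩ | ⟨ha, hb, hc⟩
  · rw [hb, hc]
    refine ⟨fun k => Dz_pt h1 k, fun k => ?_, h3'⟩
    rw [← Module.End.mul_apply, ← pow_succ]
    have e : L - (t % L + 1) + 1 = L - t % L := by omega
    rw [e]
    exact h2 k
  · rw [hb, hc]
    have e : L - t % L = 1 := by omega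
    rw [e, pow_one] at h2
    refine ⟨fun k => ?_, fun k => ?_, h3'⟩
    · rw [show K - (t / L + 1) = K - t / L - 1 by omega]; exact h2 k
    · rw [Nat.sub_zero, h3']; exact Submodule.zero_mem _

theorem Tz_sub_mem_Fz {K L : ℕ} (hL : 0 < L) (a : ℤ) : ∀ t, ∀ s ∈ Fz N K L t,
    Tz (N → ℚ) a s - s ∈ Fz N K L (t + 1) := by
  have hD : ∀ t, ∀ s ∈ Fz N K L t, Tz (N → ℚ) (-1) s - s ∈ Fz N K L (t + 1) := by
    intro t s hs
    have := Dz_mem_Fz hL hs
    rw [Dz_eq] at this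
    exact this
  have hU : ∀ t, ∀ s ∈ Fz N K L t, Tz (N → ℚ) 1 s - s ∈ Fz N K L (t + 1) := by
    intro t s hs
    have h1 := hD t _ (Tz_mem_Fz hs 1)
    rw [← Module.End.mul_apply, ← Tz_add, neg_add_cancel, Tz_zero] at h1
    have h2 := Submodule.neg_mem _ h1
    rw [neg_sub] at h2
    exact h2
  have hadd : ∀ a b : ℤ, (∀ t, ∀ s ∈ Fz N K L t, Tz (N → ℚ) a s - s ∈ Fz N K L (t + 1)) →
      (∀ t, ∀ s ∈ Fz N K L t, Tz (N → ℚ) b s - s ∈ Fz N K L (t + 1)) →
      (∀ t, ∀ s ∈ Fz N K L t, Tz (N → ℚ) (a + b) s - s ∈ Fz N K L (t + 1)) := by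
    intro a b ha hb t s hs
    have h1 : Tz (N → ℚ) (a + b) s - s = (Tz (N → ℚ) a (Tz (N → ℚ) b s) - Tz (N → ℚ) b s) +
        (Tz (N → ℚ) b s - s) := by
      rw [Tz_add, Module.End.mul_apply]; abel
    rw [h1]
    exact Submodule.add_mem _ (ha t _ (Tz_mem_Fz hs b)) (hb t s hs)
  induction a using Int.induction_on with
  | zero =>
    intro t s _
    rw [Tz_zero]
    have : (1 : Module.End ℚ (ℤ → N → ℚ)) s - s = 0 := sub_self s
    rw [this]; exact Submodule.zero_mem _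
  | succ i ih => exact hadd _ _ ih hU
  | pred i ih => exact hadd _ _ ih hD

theorem pm_mem_Fz {K L t : ℕ} (hL : 0 < L) {p : ℤ → ℚ} (hp : (Dz ℚ ^ L) p = 0) (j : ℤ)
    {μ : N → ℚ} (hμ : μ ∈ P (⊤ : Subgroup N) (K - t / L - 1)) :
    pm p j μ ∈ Fz N K L (t + 1) := by
  rw [mem_Fz]
  have h3 : (Dz (N → ℚ) ^ L) (pm p j μ) = 0 := by
    have h : pm p j μ = fun k => p (k - j) • μ := rfl
    rw [h, Dz_pow_smul, hp]
    funext k
    simp
  have h0 : ∀ n k, (Dz (N → ℚ) ^ n) (pm p j μ) k ∈ P (⊤ : Subgroup N) (K - t / L - 1) := by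
    intro n k
    have h : pm p j μ = fun k => p (k - j) • μ := rfl
    rw [h, Dz_pow_smul]
    exact Submodule.smul_mem _ _ hμ
  rcases divmod_succ hL t with ⟨ha, hb, hc⟩ | ⟨ha, hb, hc⟩
  · rw [hb, hc]
    exact ⟨fun k => P_mono _ (by omega) (h0 0 k), fun k => h0 _ k, h3⟩
  · rw [hb, hc]
    refine ⟨fun k => ?_, fun k => ?_, h3⟩
    · rw [show K - (t / L + 1) = K - t / L - 1 by omega]; exact h0 0 k
    · rw [Nat.sub_zero, h3]; exact Submodule.zero_mem _

theorem Ez_sub_mem_Fz {K L : ℕ} (hL : 0 < L) {p : ℤ → ℚ} (hp : (Dz ℚ ^ L) p = 0)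
    (S : Finset ℤ) (b : ℤ → N) : ∀ t, ∀ s ∈ Fz N K L t,
    Ez p S b s - s ∈ Fz N K L (t + 1) := by
  intro t s hs
  rw [Ez_apply, add_sub_cancel_left]
  refine Submodule.sum_mem _ fun j _ => ?_
  apply pm_mem_Fz hL hp
  exact dl_mem_P _ (hs.1 j) (Subgroup.mem_top _)

end Win

end Pool.Agent.H44R2.WrN
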